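import Mathlib
import Pool.Agent.H964.LF.Stm

set_option autoImplicit false

namespace Pool.Agent.H314.LF

open MeasureTheory
open scoped ENNReal
open Pool.Agent.H964.LF

theorem par_add {d n : ℕ} (v w : Tor d n) : par (v + w) = par v + par w := by
  unfold par
  rw [← Finset.sum_add_distrib]
  exact Finset.sum_congr rfl fun i _ => map_add _ _ _

theorem par_sub {d n : ℕ} (v w : Tor d n) : par (v - w) = par v - par w := by
  unfold par
  rw [← Finset.sum_sub_distrib]
  exact Finset.sum_congr rfl fun i _ => map_sub _ _ _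

theorem par_single {d n : ℕ} (i : Fin d) : par (Pi.single i 1 : Tor d n) = 1 := by
  unfold par
  rw [Finset.sum_eq_single i]
  · rw [Pi.single_eq_same, map_one]
  · intro j _ hj
    rw [Pi.single_eq_of_ne hj, map_zero]
  · intro h
    exact absurd (Finset.mem_univ i) h

theorem par_nb {d n : ℕ} (v : Tor d n) (a : Fin d × Bool) : par (nb v a) = par v + 1 := by
  unfold nb
  split_ifs
  · rw [par_add, par_single]
  · rw [par_sub, par_single]
    have h : ∀ t : ZMod 2, t - 1 = t + 1 := by decide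
    exact h _

section sup

variable {A : Type} [Fintype A] [Nonempty A]

theorem le_sup (f : A → ℝ) (a : A) : f a ≤ ⨆ a, f a := le_ciSup (Set.finite_range f).bddAbove a

theorem inf_le (f : A → ℝ) (a : A) : (⨅ a, f a) ≤ f a := ciInf_le (Set.finite_range f).bddBelow a

theorem inf_le_sup (f : A → ℝ) : (⨅ a, f a) ≤ ⨆ a, f a := by
  obtain ⟨a⟩ := ‹Nonempty A›
  exact (inf_le f a).trans (le_sup f a)

theorem sup_neg (f : A → ℝ) : (⨆ a, -f a) = -⨅ a, f a := by
  apply le_antisymm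
  · exact ciSup_le fun a => neg_le_neg (inf_le f a)
  · rw [neg_le]
    refine le_ciInf fun a => ?_
    rw [neg_le]
    exact le_sup (fun a => -f a) a

theorem inf_neg (f : A → ℝ) : (⨅ a, -f a) = -⨆ a, f a := by
  have h := sup_neg (fun a => -f a)
  simp only [neg_neg] at h
  rw [h, neg_neg]

theorem sup_mid (f g : A → ℝ) : (⨆ a, (f a + g a) / 2) ≤ ((⨆ a, f a) + ⨆ a, g a) / 2 :=
  ciSup_le fun a => by linarith [le_sup f a, le_sup g a]

theorem inf_mid (f g : A → ℝ) : ((⨅ a, f a) + ⨅ a, g a) / 2 ≤ ⨅ a, (f a + g a) / 2 :=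
  le_ciInf fun a => by linarith [inf_le f a, inf_le g a]

end sup

theorem ne_ix {d : ℕ} (hd : 1 ≤ d) : Nonempty (Fin d × Bool) := ⟨(⟨0, hd⟩, true)⟩

theorem Len_nonneg {d n : ℕ} (x : Tor d n → ℝ) (v : Tor d n) : 0 ≤ Len x v := le_max_left _ _

theorem Len_le {d n : ℕ} (hd : 1 ≤ d) (x : Tor d n → ℝ) (v : Tor d n) : Len x v ≤ 2 := by
  have := ne_ix hd
  unfold Len
  refine max_le (by norm_num) ?_
  have h := inf_le_sup (fun a => x (nb v a))
  linarith

theorem Len_neg {d n : ℕ} (hd : 1 ≤ d) (x : Tor d n → ℝ) (v : Tor d n) :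
    Len (-x) v = Len x v := by
  have := ne_ix hd
  unfold Len
  have h1 : (⨆ a, (-x) (nb v a)) = -⨅ a, x (nb v a) := sup_neg (fun a => x (nb v a))
  have h2 : (⨅ a, (-x) (nb v a)) = -⨆ a, x (nb v a) := inf_neg (fun a => x (nb v a))
  rw [h1, h2]
  congr 1
  ring

theorem Len_mid {d n : ℕ} (hd : 1 ≤ d) (x y : Tor d n → ℝ) (v : Tor d n) :
    Len x v * Len y v ≤ Len (mid x y) v ^ 2 := by
  have := ne_ix hd
  have h1 : (⨆ a, (mid x y) (nb v a)) ≤ ((⨆ a, x (nb v a)) + ⨆ a, y (nb v a)) / 2 :=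
    sup_mid (fun a => x (nb v a)) (fun a => y (nb v a))
  have h2 : ((⨅ a, x (nb v a)) + ⨅ a, y (nb v a)) / 2 ≤ (⨅ a, (mid x y) (nb v a)) :=
    inf_mid (fun a => x (nb v a)) (fun a => y (nb v a))
  unfold Len
  rcases le_or_gt (2 - (⨆ a, x (nb v a)) + ⨅ a, x (nb v a)) 0 with hx | hx
  · rw [max_eq_left hx, zero_mul]
    positivity
  rcases le_or_gt (2 - (⨆ a, y (nb v a)) + ⨅ a, y (nb v a)) 0 with hy | hy
  · rw [max_eq_left hy, mul_zero]
    positivity
  rw [max_eq_right hx.le, max_eq_right hy.le]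
  have h3 : ((2 - (⨆ a, x (nb v a)) + ⨅ a, x (nb v a)) +
      (2 - (⨆ a, y (nb v a)) + ⨅ a, y (nb v a))) / 2 ≤
      max 0 (2 - (⨆ a, (mid x y) (nb v a)) + ⨅ a, (mid x y) (nb v a)) := by
    refine le_trans ?_ (le_max_right _ _)
    linarith
  have h4 : (0 : ℝ) ≤ ((2 - (⨆ a, x (nb v a)) + ⨅ a, x (nb v a)) +
      (2 - (⨆ a, y (nb v a)) + ⨅ a, y (nb v a))) / 2 := by linarith
  have h5 := pow_le_pow_left₀ h4 h3 2
  refine le_trans ?_ h5
  nlinarith [sq_nonneg ((2 - (⨆ a, x (nb v a)) + ⨅ a, x (nb v a)) -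
      (2 - (⨆ a, y (nb v a)) + ⨅ a, y (nb v a)))]

theorem Len_meas {d n : ℕ} (v : Tor d n) : Measurable fun x : Tor d n → ℝ => Len x v := by
  unfold Len
  refine measurable_const.max ?_
  refine Measurable.add (Measurable.sub measurable_const ?_) ?_
  · exact Measurable.iSup fun a => measurable_pi_apply (nb v a)
  · exact Measurable.iInf fun a => measurable_pi_apply (nb v a)

theorem FF_meas {d n : ℕ} (p : Tor d n) : Measurable (FF p) := by
  unfold FF
  refine Measurable.mul ?_ ?_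
  · exact Finset.measurable_fun_prod _ fun v _ => (Len_meas v).ennreal_ofReal
  · refine Measurable.ite ?_ measurable_const measurable_const
    exact measurableSet_le (continuous_abs.measurable.comp (measurable_pi_apply p))
      measurable_const

theorem FF_mid {d n : ℕ} (hd : 1 ≤ d) (p : Tor d n) (x y : Tor d n → ℝ) :
    FF p x * FF p y ≤ FF p (mid x y) ^ 2 := by
  unfold FF
  have h1 : (∏ v ∈ ev d n, ENNReal.ofReal (Len x v)) * (∏ v ∈ ev d n, ENNReal.ofReal (Len y v)) ≤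
      (∏ v ∈ ev d n, ENNReal.ofReal (Len (mid x y) v)) ^ 2 := by
    rw [← Finset.prod_mul_distrib, ← Finset.prod_pow]
    refine Finset.prod_le_prod' fun v _ => ?_
    rw [← ENNReal.ofReal_mul (Len_nonneg x v), ← ENNReal.ofReal_pow (Len_nonneg _ v)]
    exact ENNReal.ofReal_le_ofReal (Len_mid hd x y v)
  have h2 : (if |x p| ≤ 1 / 2 then (1 : ℝ≥0∞) else 0) * (if |y p| ≤ 1 / 2 then 1 else 0) ≤
      (if |(mid x y) p| ≤ 1 / 2 then 1 else 0) ^ 2 := by
    by_cases hx : |x p| ≤ 1 / 2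
    · by_cases hy : |y p| ≤ 1 / 2
      · have hm : |(mid x y) p| ≤ 1 / 2 := by
          show |(x p + y p) / 2| ≤ 1 / 2
          rw [abs_le] at hx hy ⊢
          constructor <;> linarith [hx.1, hx.2, hy.1, hy.2]
        rw [if_pos hx, if_pos hy, if_pos hm]
        norm_num
      · rw [if_neg hy, mul_zero]
        exact zero_le
    · rw [if_neg hx, zero_mul]
      exact zero_le
  calc ((∏ v ∈ ev d n, ENNReal.ofReal (Len x v)) * (if |x p| ≤ 1 / 2 then 1 else 0)) *
      ((∏ v ∈ ev d n, ENNReal.ofReal (Len y v)) * (if |y p| ≤ 1 / 2 then 1 else 0))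
      = ((∏ v ∈ ev d n, ENNReal.ofReal (Len x v)) * (∏ v ∈ ev d n, ENNReal.ofReal (Len y v))) *
        ((if |x p| ≤ 1 / 2 then 1 else 0) * (if |y p| ≤ 1 / 2 then 1 else 0)) := by ring
    _ ≤ (∏ v ∈ ev d n, ENNReal.ofReal (Len (mid x y) v)) ^ 2 *
        (if |(mid x y) p| ≤ 1 / 2 then 1 else 0) ^ 2 := mul_le_mul' h1 h2
    _ = _ := by rw [mul_pow]

theorem t_BAS : S_BAS := by
  intro d n hd
  refine ⟨par_nb, fun v x => ⟨Len_nonneg x v, Len_le hd x v⟩, FF_meas, ?_, FF_mid hd, ?_⟩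
  · intro p x
    unfold FF
    rw [Finset.prod_congr rfl fun v _ => by rw [Len_neg hd x v], Pi.neg_apply, abs_neg]
  · intro p x y hp h
    unfold FF
    rw [h p hp]
    congr 1
    refine Finset.prod_congr rfl fun v hv => ?_
    have hv0 : par v = 0 := (Finset.mem_filter.1 hv).2
    have hn : ∀ a, x (nb v a) = y (nb v a) := fun a => h _ (by rw [par_nb, hv0, zero_add])
    unfold Len
    simp only [hn]

end Pool.Agent.H314.LF
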